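import Pool.Agent.Helper67.NO.St3

/-! NO MODULE PRO (project NO, MP_26be5b_ag): orthogonal projections. -/

set_option autoImplicit false

namespace Pool.Agent.Helper36.NO

open Matrix Pool.Agent.Helper67.NO
open scoped Matrix.Norms.Frobenius ContDiff Topology

variable {ι : Type} [Fintype ι]

theorem trace_star_mul (X Y : Matrix ι ι ℂ) :
    trace (Xᴴ * Y) = ∑ p : ι × ι, star (X p.1 p.2) * Y p.1 p.2 := by
  rw [Fintype.sum_prod_type, Finset.sum_comm]
  simp [Matrix.trace, Matrix.mul_apply]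

theorem norm_sq_eq (X : Matrix ι ι ℂ) : ‖X‖ ^ 2 = (trace (Xᴴ * X)).re := by
  rw [trace_star_mul, Fintype.sum_prod_type, Matrix.frobenius_norm_def, ← Real.sqrt_eq_rpow,
    Real.sq_sqrt]
  · rw [Complex.re_sum]
    refine Finset.sum_congr rfl fun i _ => ?_
    rw [Complex.re_sum]
    refine Finset.sum_congr rfl fun j _ => ?_
    have h1 : star (X i j) * X i j = ((‖X i j‖ ^ 2 : ℝ) : ℂ) := by
      have := Complex.conj_mul' (X i j)
      rw [Complex.star_def, this]
      push_cast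
      rfl
    rw [h1, Complex.ofReal_re]
    norm_cast
  · positivity

/-- matrices as a Euclidean space -/
noncomputable def toE (ι : Type) [Fintype ι] :
    Matrix ι ι ℂ ≃ₗ[ℂ] EuclideanSpace ℂ (ι × ι) :=
  (LinearEquiv.curry ℂ ℂ ι ι).symm.trans (WithLp.linearEquiv 2 ℂ (ι × ι → ℂ)).symm

theorem toE_apply (X : Matrix ι ι ℂ) (p : ι × ι) : toE ι X p = X p.1 p.2 := rfl

theorem inner_toE (X Y : Matrix ι ι ℂ) : inner ℂ (toE ι X) (toE ι Y) = trace (Xᴴ * Y) := by
  rw [trace_star_mul, PiLp.inner_apply]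
  refine Finset.sum_congr rfl fun p _ => ?_
  rw [toE_apply, toE_apply, RCLike.inner_apply, mul_comm]
  rfl

theorem exists_pr (L : Submodule ℂ (Matrix ι ι ℂ)) :
    ∃ P : Matrix ι ι ℂ →ₗ[ℂ] Matrix ι ι ℂ, IsPr L P := by
  let e := toE ι
  let K : Submodule ℂ (EuclideanSpace ℂ (ι × ι)) := L.map e.toLinearMap
  let P : Matrix ι ι ℂ →ₗ[ℂ] Matrix ι ι ℂ :=
    e.symm.toLinearMap ∘ₗ K.starProjection.toLinearMap ∘ₗ e.toLinearMap
  have hP : ∀ X, e (P X) = K.starProjection (e X) := by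
    intro X
    show e (e.symm _) = _
    rw [LinearEquiv.apply_symm_apply]
    rfl
  have hK : ∀ X, e X ∈ K ↔ X ∈ L := by
    intro X
    constructor
    · rintro ⟨Y, hY, h⟩
      have : Y = X := e.injective h
      rw [← this]; exact hY
    · intro h
      exact ⟨X, h, rfl⟩
  refine ⟨P, ⟨fun X => ?_, fun X hX => ?_, fun X Y hY => ?_⟩⟩
  · rw [← hK, hP]
    exact Submodule.starProjection_apply_mem K (e X)
  · apply e.injective
    rw [hP]
    exact Submodule.starProjection_eq_self_iff.2 ((hK X).2 hX)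
  · rw [← inner_toE]
    have h1 : toE ι (X - P X) = e X - K.starProjection (e X) := by
      rw [map_sub]
      show e X - e (P X) = _
      rw [hP]
    rw [h1]
    have h2 : e X - K.starProjection (e X) ∈ Kᗮ := Submodule.sub_starProjection_mem_orthogonal _
    exact (Submodule.mem_orthogonal K _).1 h2 _ ((hK Y).2 hY)

theorem pPRO : StPRO := by
  intro ι _ _ L hL
  obtain ⟨P, hP⟩ := exists_pr L
  have huniq : ∀ X Z, Z ∈ L → (∀ Y ∈ L, trace (Yᴴ * (X - Z)) = 0) → Z = P X := by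
    intro X Z hZ h
    have hD : Z - P X ∈ L := L.sub_mem hZ (hP.mem X)
    have h1 : trace ((Z - P X)ᴴ * (Z - P X)) = 0 := by
      have h2 : Z - P X = (X - P X) - (X - Z) := by abel
      have h3 : trace ((Z - P X)ᴴ * ((X - P X) - (X - Z))) = 0 := by
        rw [mul_sub, trace_sub, hP.orth X _ hD, h _ hD, sub_zero]
      rwa [← h2] at h3
    have h4 : ‖Z - P X‖ ^ 2 = 0 := by rw [norm_sq_eq, h1, Complex.zero_re]
    exact sub_eq_zero.1 (norm_eq_zero.1 (pow_eq_zero_iff two_ne_zero |>.1 h4))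
  have hstar : ∀ X, P Xᴴ = (P X)ᴴ := by
    intro X
    symm
    apply huniq
    · exact hL _ (hP.mem X)
    · intro Y hY
      have h1 : trace (Yᴴᴴ * (X - P X)) = 0 := hP.orth X _ (hL Y hY)
      rw [conjTranspose_conjTranspose] at h1
      have h2 : Yᴴ * (Xᴴ - (P X)ᴴ) = ((X - P X) * Y)ᴴ := by
        rw [conjTranspose_mul, conjTranspose_sub]
      rw [h2, trace_conjTranspose, trace_mul_comm, h1, star_zero]
  refine ⟨P, hP, hstar, fun X => ?_, fun X => ⟨fun h Y hY => ?_, fun h => ?_⟩⟩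
  · have h1 : trace ((P X)ᴴ * (X - P X)) = 0 := hP.orth X _ (hP.mem X)
    have h2 : trace ((X - P X)ᴴ * P X) = 0 := by
      have h3 : (X - P X)ᴴ * P X = ((P X)ᴴ * (X - P X))ᴴ := by
        rw [conjTranspose_mul, conjTranspose_conjTranspose]
      rw [h3, trace_conjTranspose, h1, star_zero]
    have h4 : trace (Xᴴ * X) = trace ((P X)ᴴ * P X) + trace ((X - P X)ᴴ * (X - P X)) := by
      have h5 : Xᴴ * X = (P X)ᴴ * P X + (P X)ᴴ * (X - P X) + (X - P X)ᴴ * P X +
          (X - P X)ᴴ * (X - P X) := by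
        rw [conjTranspose_sub]; noncomm_ring
      rw [h5, trace_add, trace_add, trace_add, h1, h2, add_zero, add_zero]
    rw [norm_sq_eq, norm_sq_eq, norm_sq_eq, h4, Complex.add_re]
  · have h1 : trace (Yᴴᴴ * (X - P X)) = 0 := hP.orth X _ (hL Y hY)
    rw [conjTranspose_conjTranspose, h, sub_zero] at h1
    exact h1
  · symm
    apply huniq X 0 L.zero_mem
    intro Y hY
    rw [sub_zero]
    exact h _ (hL Y hY)

end Pool.Agent.Helper36.NO
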